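import Pool.Agent.R709.SM.LocFin

/-! MP_fc2b6d_co, Q1, for locally finite host graphs `G`.  `SMax H G F`: the spanning subgraph
`F ≤ G` is a strongly maximal `H`-free edge set of `G` (defined in `Pool.Agent.R709.SM.Defs`). -/

namespace Pool.Agent.Results.MP_fc2b6d_co.LocallyFiniteHosts

open SimpleGraph Pool.Agent.R709.SM

/-- Let `H` be a finite connected graph with at least one edge. Every locally finite graph `G`, of
any cardinality, has a strongly maximal `H`-free edge set. -/
theorem result (V W : Type) [Finite W] (H : SimpleGraph W) (G : SimpleGraph V)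
    (hH : H.Connected) (he : ∃ a b, H.Adj a b) (hG : ∀ v, (G.neighborSet v).Finite) :
    ∃ F : SimpleGraph V, SMax H G F :=
  locfin V W H G hH he hG

end Pool.Agent.Results.MP_fc2b6d_co.LocallyFiniteHosts
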