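import Pool.Agent.R709.SM.RegMain

/-! MP_fc2b6d_co, Q1, for regular graphs `H`.  `SMax H G F`: the spanning subgraph `F ≤ G` is a
strongly maximal `H`-free edge set of `G`.  `Good H`: every graph has one.  Both are defined in
`Pool.Agent.R709.SM.Defs`. -/

namespace Pool.Agent.Results.MP_fc2b6d_co.RegularGraphs

open SimpleGraph Pool.Agent.R709.SM

/-- Let `H` be a finite regular graph of degree `d` (connected or not). Every graph has a strongly
maximal `H`-free edge set if and only if `H` is the complete graph on two vertices. -/
theorem result (W : Type) [Finite W] (H : SimpleGraph W) (d : ℕ)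
    (hr : ∀ w, (H.neighborSet w).ncard = d) : Good H ↔ (Nat.card W = 2 ∧ d = 1) :=
  regular W H d hr

end Pool.Agent.Results.MP_fc2b6d_co.RegularGraphs
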