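import Pool.Agent.R709.SM.B1
import Pool.Agent.R709.SM.B2

/-! MP_fc2b6d_co, Q1, for stars.  `SMax H G F`: the spanning subgraph `F ≤ G` is a strongly
maximal `H`-free edge set of `G`.  `Good H`: every graph has one (both defined in
`Pool.Agent.R709.SM.Defs`). -/

namespace Pool.Agent.Results.MP_fc2b6d_co.StarsFromMatchings

open SimpleGraph Pool.Agent.R709.SM

/-- If every graph has a strongly maximal `P_3`-free edge set (a strongly maximal matching), then
for every finite graph `H` with an edge all of whose edges share a vertex (a star with isolated
vertices) every graph has a strongly maximal `H`-free edge set. -/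
theorem result (hP : Good (pathGraph 3)) (W : Type) [Finite W] (H : SimpleGraph W) (c : W)
    (he : ∃ v, H.Adj c v) (hc : ∀ u v, H.Adj u v → u = c ∨ v = c) : Good H :=
  b2 (b1 (b3 hP)) W H c he hc

end Pool.Agent.Results.MP_fc2b6d_co.StarsFromMatchings
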