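import Pool.Agent.R709.SM.BlockMain

/-! MP_fc2b6d_co, Q1: blocks occurring once.  `SMax H G F`: the spanning subgraph `F ≤ G` is a
strongly maximal `H`-free edge set of `G`.  `Good H`: every graph has one (both defined in
`Pool.Agent.R709.SM.Defs`).  `UniqueBlock H A` (defined in `Pool.Agent.R709.SM.Stm5`): `A` is the
vertex set of a 2-connected block of `H`, with at least three vertices, which is not contained in
the graph `H` with all but one vertex of `A` deleted. -/

namespace Pool.Agent.Results.MP_fc2b6d_co.UniqueBlock

open SimpleGraph Pool.Agent.R709.SM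

/-- Let `A` be the vertex set of a 2-connected block of the finite graph `H` which occurs only once
in `H`. If every graph has a strongly maximal `H`-free edge set then the same holds for the block;
and this is impossible if the block is regular or if no two adjacent vertices separate it. -/
theorem result (W : Type) [Finite W] (H : SimpleGraph W) (A : Set W) (hA : UniqueBlock H A) :
    (Good H → Good (H.induce A)) ∧
    (∀ d : ℕ, (∀ w, ((H.induce A).neighborSet w).ncard = d) → ¬ Good H) ∧
    ((∀ a b : A, (H.induce A).Adj a b →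
      ((H.induce A).induce ({a, b} : Set A)ᶜ).Preconnected) → ¬ Good H) := by
  have hred : ¬ Good (H.induce A) → ¬ Good H := block W H A hA
  obtain ⟨⟨a, b, c, ha, hb, hc, hab, hac, hbc⟩, hconn, hcut, -, -⟩ := hA
  refine ⟨fun h => by_contra fun h' => hred h' h, ?_, ?_⟩
  · intro d hd
    apply hred
    rw [regular ↥A (H.induce A) d hd]
    rintro ⟨h2, -⟩
    have hinj : Function.Injective (![⟨a, ha⟩, ⟨b, hb⟩, ⟨c, hc⟩] : Fin 3 → A) := by
      intro i j hij
      fin_cases i <;> fin_cases j <;> simp_all [Ne.symm hab, Ne.symm hac, Ne.symm hbc]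
    have h3 := Nat.card_le_card_of_injective _ hinj
    rw [Nat.card_eq_fintype_card, Fintype.card_fin, h2] at h3
    omega
  · intro hsep
    apply hred
    refine BM.block_bad ⟨⟨a, ha⟩, ⟨b, hb⟩, ⟨c, hc⟩, ?_, ?_, ?_⟩ hconn ?_ hsep
    · exact fun h => hab (congrArg Subtype.val h)
    · exact fun h => hac (congrArg Subtype.val h)
    · exact fun h => hbc (congrArg Subtype.val h)
    · rintro ⟨v, hv⟩
      have e : (H.induce (A \ {v})) ≃g ((H.induce A).induce ({⟨v, hv⟩} : Set A)ᶜ) :=
        { toFun := fun x => ⟨⟨x.1, x.2.1⟩, fun h => x.2.2 (congrArg Subtype.val h)⟩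
          invFun := fun x => ⟨x.1.1, x.1.2, fun h => x.2 (Subtype.ext h)⟩
          left_inv := fun _ => rfl
          right_inv := fun _ => rfl
          map_rel_iff' := Iff.rfl }
      exact (Iso.connected_iff e).1 (hcut v hv)

end Pool.Agent.Results.MP_fc2b6d_co.UniqueBlock
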